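import Pool.Agent.W486.AG.Word

/-!
G0-INS (helper74): insertion of a new edge.
-/

set_option autoImplicit false

namespace Pool.Agent.W74.AG

open Pool.Agent.W486.AG

lemma cyl {W : Set Cn} (hW : IsOpen W) {x : Cn} (hx : x ∈ W) :
    ∃ K : ℕ, ∀ y : Cn, (∀ i, i < K → y i = x i) → y ∈ W := by
  obtain ⟨I, u, hu, hsub⟩ := isOpen_pi_iff.1 hW x hx
  refine ⟨I.sup id + 1, fun y hy => hsub ?_⟩
  intro i hi
  have h1 : i ≤ I.sup id := Finset.le_sup (f := id) hi
  rw [hy i (by omega)]
  exact (hu i hi).2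

lemma cyl_open (K : ℕ) (x : Cn) : IsOpen {y : Cn | ∀ i, i < K → y i = x i} := by
  have : {y : Cn | ∀ i, i < K → y i = x i} = ⋂ i ∈ Finset.range K, {y : Cn | y i = x i} := by
    ext y
    simp
  rw [this]
  apply isOpen_biInter_finset
  intro i _
  have h : {y : Cn | y i = x i} = (fun y : Cn => y i) ⁻¹' ({x i} : Set Bool) := rfl
  rw [h]
  exact (isOpen_discrete _).preimage (continuous_apply i)

/-- uniform continuity of the coordinates -/
lemma uc {f : Cn → X} (hf : Continuous f) (m : ℕ) :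
    ∃ K : ℕ, ∀ x y : Cn, (∀ i, i < K → x i = y i) → f x m = f y m := by
  have hg : Continuous (fun x : Cn => f x m) := (continuous_coord m).comp hf
  have h1 : ∀ x : Cn, ∃ K : ℕ, ∀ y : Cn, (∀ i, i < K → y i = x i) → f y m = f x m := by
    intro x
    exact cyl ((isOpen_discrete {f x m}).preimage hg) (x := x) rfl
  choose K hK using h1
  obtain ⟨t, ht⟩ := isCompact_univ.elim_finite_subcover
    (fun x : Cn => {y : Cn | ∀ i, i < K x → y i = x i}) (fun x => cyl_open (K x) x)
    (fun y _ => Set.mem_iUnion.2 ⟨y, fun i _ => rfl⟩)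
  refine ⟨t.sup K, fun x y hxy => ?_⟩
  have hx := ht (Set.mem_univ x)
  rw [Set.mem_iUnion₂] at hx
  obtain ⟨x0, hx0, hx1⟩ := hx
  have hK0 : K x0 ≤ t.sup K := Finset.le_sup hx0
  have hy1 : ∀ i, i < K x0 → y i = x0 i := by
    intro i hi
    rw [← hxy i (by omega)]
    exact hx1 i hi
  rw [hK x0 x hx1, hK x0 y hy1]

lemma pt_cont (s : ℕ → ℕ → Bool) (n : ℕ) (b : Bool) (N' : ℕ) (τ : Cn) :
    Continuous (fun z : Cn => pt s n b N' τ z) := by
  apply continuous_pi
  intro i
  unfold pt
  by_cases h1 : i < n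
  · simp only [if_pos h1]; exact continuous_const
  · by_cases h2 : i = n
    · simp only [if_neg h1, if_pos h2]; exact continuous_const
    · by_cases h3 : i < N'
      · simp only [if_neg h1, if_neg h2, if_pos h3]; exact continuous_const
      · simp only [if_neg h1, if_neg h2, if_neg h3]; exact continuous_apply i

lemma pt_G0 (s : ℕ → ℕ → Bool) (n : ℕ) (b : Bool) (N' : ℕ) (τ z : Cn) :
    G0 s (pt s n (!b) N' τ z) (pt s n b N' τ z) := by
  refine ⟨n, ?_, ?_, ?_⟩
  · intro i hi
    unfold pt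
    rw [if_pos hi, if_pos hi]
    exact ⟨rfl, rfl⟩
  · unfold pt
    simp
  · intro i hi
    unfold pt
    simp only [show ¬ i < n by omega, show ¬ i = n by omega, if_false]

/-- an edge between points which agree below `D` and differ at `D` -/
lemma level_eq (hstr : S_STR) (hp : Post E) {d D' al D : ℕ} {a b : X} (h : E d D' al a b)
    (hlow : ∀ m, m < D → a m = b m) (hD : a D ≠ b D) : D' = D := by
  obtain ⟨_, h2⟩ := hstr E hp d D' al a b h
  have hne : a D' ≠ b D' := by
    intro e
    obtain ⟨T, hT, _⟩ := (h2 D').1 (le_refl _)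
    rw [P_nil.2 e] at hT
    exact absurd hT (by simp)
  have h3 := hp.low d D' al a b h
  rcases lt_trichotomy D' D with g | g | g
  · exact absurd (hlow D' g) hne
  · exact g
  · exact absurd (h3 D g) hD

lemma word_eq (hstr : S_STR) (hp : Post E) {d D al : ℕ} {a b : X} (h : E d D al a b) :
    P D a b = [(D, true)] := by
  obtain ⟨_, h2⟩ := hstr E hp d D al a b h
  obtain ⟨T, hT, hT2⟩ := (h2 D).1 (le_refl _)
  rcases T with _ | ⟨p, T⟩
  · exact hT
  · exfalso
    have h3 : p ∈ P D a b := by rw [hT]; simp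
    have h4 := P_le h3
    have h5 := hT2 p (by simp)
    omega

theorem ins (hstr : S_STR) (htree : S_TREE) : S_INS := by
  intro s f hs hf v N c
  obtain ⟨hp, _, _⟩ := htree
  obtain ⟨hfc, hfG⟩ := hf
  obtain ⟨Nc, hNc⟩ := uc hfc c
  obtain ⟨n, hn, hsn⟩ := hs v (max N Nc)
  have hnN : N ≤ n := (le_max_left _ _).trans hn
  have hnNc : Nc ≤ n := (le_max_right _ _).trans hn
  let z0 : Cn := fun _ => false
  -- the base edge
  obtain ⟨ε, d0, D, al0, hE0⟩ : ∃ (ε : Bool) (d0 D al0 : ℕ),
      E d0 D al0 (f (pt s n (!ε) (n + 1) z0 z0)) (f (pt s n ε (n + 1) z0 z0)) := by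
    have h := hfG _ _ (pt_G0 s n true (n + 1) z0 z0)
    rw [G, SimpleGraph.fromRel_adj] at h
    rcases h.2 with ⟨d, D, al, hE⟩ | ⟨d, D, al, hE⟩
    · exact ⟨true, d, D, al, hE⟩
    · exact ⟨false, d, D, al, hE⟩
  obtain ⟨a, ha⟩ : ∃ a, a = f (pt s n (!ε) (n + 1) z0 z0) := ⟨_, rfl⟩
  obtain ⟨b, hb⟩ : ∃ b, b = f (pt s n ε (n + 1) z0 z0) := ⟨_, rfl⟩
  rw [← ha, ← hb] at hE0
  have hlow := hp.low _ _ _ _ _ hE0
  have hword := word_eq hstr hp hE0
  have hDne : a D ≠ b D := by
    intro e
    rw [P_nil.2 e] at hword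
    exact absurd hword (by simp)
  have hcD : c < D := by
    by_contra hcon
    push Not at hcon
    apply hDne
    have e : a c = b c := by
      rw [ha, hb]
      apply hNc
      intro i hi
      unfold pt
      rw [if_pos (by omega), if_pos (by omega)]
    rw [← a.compat hcon, ← b.compat hcon, e]
  obtain ⟨KD, hKD⟩ := uc hfc D
  obtain ⟨N1, hN1⟩ : ∃ N1, N1 = max (n + 1) KD := ⟨_, rfl⟩
  have hnN1 : n + 1 ≤ N1 := by rw [hN1]; exact le_max_left _ _
  have hKN1 : KD ≤ N1 := by rw [hN1]; exact le_max_right _ _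
  have hlev : ∀ (β : Bool) (z : Cn), f (pt s n β N1 z0 z) D = f (pt s n β (n + 1) z0 z0) D := by
    intro β z
    apply hKD
    intro i hi
    unfold pt
    by_cases h1 : i < n
    · rw [if_pos h1, if_pos h1]
    · by_cases h2 : i = n
      · rw [if_neg h1, if_pos h2, if_neg h1, if_pos h2]
      · rw [if_neg h1, if_neg h2, if_neg h1, if_neg h2, if_pos (by omega), if_neg (by omega)]
  -- all edges have the same level and the same direction
  have hall : ∀ z : Cn, ∃ d al, E d D al (f (pt s n (!ε) N1 z0 z)) (f (pt s n ε N1 z0 z)) := by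
    intro z
    obtain ⟨x, hx⟩ : ∃ x, x = f (pt s n (!ε) N1 z0 z) := ⟨_, rfl⟩
    obtain ⟨y, hy⟩ : ∃ y, y = f (pt s n ε N1 z0 z) := ⟨_, rfl⟩
    have hxa : x D = a D := by rw [hx, ha]; exact hlev _ _
    have hyb : y D = b D := by rw [hy, hb]; exact hlev _ _
    have hxylow : ∀ m, m < D → x m = y m := by
      intro m hm
      rw [← x.compat hm.le, ← y.compat hm.le, hxa, hyb, a.compat hm.le, b.compat hm.le]
      exact hlow m hm
    have hxyD : x D ≠ y D := by rw [hxa, hyb]; exact hDne
    have hPxy : P D x y = [(D, true)] := by rw [P_congr hxa hyb]; exact hword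
    have h := hfG _ _ (pt_G0 s n ε N1 z0 z)
    rw [← hx, ← hy] at h ⊢
    rw [G, SimpleGraph.fromRel_adj] at h
    rcases h.2 with ⟨d, D', al, hE⟩ | ⟨d, D', al, hE⟩
    · have := level_eq hstr hp hE hxylow hxyD
      rw [this] at hE
      exact ⟨d, al, hE⟩
    · exfalso
      have := level_eq hstr hp hE (fun m hm => (hxylow m hm).symm) hxyD.symm
      rw [this] at hE
      have h1 := word_eq hstr hp hE
      rw [P_inv, hPxy] at h1
      simp [FreeGroup.invRev] at h1
  -- Baire category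
  let C : ℕ → Set Cn := fun A => {z | ∀ m, A ≤ m →
    ∀ p ∈ (P m (f (pt s n (!ε) N1 z0 z)) (f (pt s n ε N1 z0 z))).getLast?, p.1 ≤ A}
  have hCclosed : ∀ A, IsClosed (C A) := by
    intro A
    have : C A = ⋂ (m : ℕ) (_ : A ≤ m), {z : Cn | ∀ p ∈ (P m (f (pt s n (!ε) N1 z0 z))
        (f (pt s n ε N1 z0 z))).getLast?, p.1 ≤ A} := by
      ext z
      simp only [C, Set.mem_iInter]
      exact Iff.rfl
    rw [this]
    refine isClosed_iInter fun m => isClosed_iInter fun _ => ?_
    have hcont : Continuous (fun z : Cn => (f (pt s n (!ε) N1 z0 z) m, f (pt s n ε N1 z0 z) m)) :=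
      (((continuous_coord m).comp hfc).comp (pt_cont s n (!ε) N1 z0)).prodMk
        (((continuous_coord m).comp hfc).comp (pt_cont s n ε N1 z0))
    exact (isClosed_discrete {q : FG × FG | ∀ p ∈ ((q.1)⁻¹ * q.2).toWord.getLast?,
      p.1 ≤ A}).preimage hcont
  have hCunion : ⋃ A, C A = Set.univ := by
    rw [Set.eq_univ_iff_forall]
    intro z
    obtain ⟨d, al, hE⟩ := hall z
    obtain ⟨_, h2⟩ := hstr E hp _ _ _ _ _ hE
    rw [Set.mem_iUnion]
    refine ⟨al, fun m hm p hpm => ?_⟩
    obtain ⟨T, sg, hT⟩ := (h2 m).2.1 hm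
    rw [hT, List.getLast?_append] at hpm
    simp at hpm
    rw [← hpm]
  obtain ⟨A, hA⟩ := nonempty_interior_of_iUnion_of_closed hCclosed hCunion
  obtain ⟨z2, hz2⟩ := hA
  obtain ⟨K2, hK2⟩ := cyl isOpen_interior hz2
  refine ⟨n, ε, max N1 K2, fun i => if i < N1 then z0 i else z2 i, D, A, hnN, ?_, ?_, hcD, ?_⟩
  · exact lt_of_lt_of_le (by omega) (le_max_left N1 K2)
  · intro i hi
    exact hsn i (lt_of_lt_of_le hi (le_max_left _ _))
  · intro z
    let z3 : Cn := fun i => if i < max N1 K2 then z2 i else z i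
    have hz3 : z3 ∈ C A := by
      apply interior_subset
      apply hK2
      intro i hi
      show (if i < max N1 K2 then z2 i else z i) = z2 i
      rw [if_pos (lt_of_lt_of_le hi (le_max_right _ _))]
    have hpt : ∀ β : Bool, pt s n β (max N1 K2) (fun i => if i < N1 then z0 i else z2 i) z =
        pt s n β N1 z0 z3 := by
      intro β
      funext i
      unfold pt
      by_cases h1 : i < n
      · rw [if_pos h1, if_pos h1]
      · by_cases h2 : i = n
        · rw [if_neg h1, if_pos h2, if_neg h1, if_pos h2]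
        · rw [if_neg h1, if_neg h2, if_neg h1, if_neg h2]
          by_cases h3 : i < N1
          · simp only [if_pos (lt_of_lt_of_le h3 (le_max_left N1 K2)), if_pos h3]
          · by_cases h4 : i < max N1 K2
            · simp only [if_pos h4, if_neg h3]
              show z2 i = (if i < max N1 K2 then z2 i else z i)
              rw [if_pos h4]
            · rw [if_neg h4, if_neg h3]
              show z i = (if i < max N1 K2 then z2 i else z i)
              rw [if_neg h4]
    rw [hpt, hpt]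
    obtain ⟨d, al, hE⟩ := hall z3
    refine ⟨d, al, ?_, hE⟩
    obtain ⟨_, h2⟩ := hstr E hp _ _ _ _ _ hE
    obtain ⟨T, sg, hT⟩ := (h2 (max A al)).2.1 (le_max_right _ _)
    have h5 := hz3 (max A al) (le_max_left _ _) (al, sg) (by
      rw [hT, List.getLast?_append]; simp)
    exact h5

end Pool.Agent.W74.AG
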